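import Pool.Agent.Helper96_LAX.Stmts

/-!
Squad LAX, module P1S (helper53): doubling the number of classes in Phase I.
-/

set_option autoImplicit false

namespace Pool.Agent.LAX.H53

open Set

variable {V : Type}

/-- what is left of `R` -/
def rem (R : Set (V × V)) (F : ℕ → Set (V × V)) (n : ℕ) : Set (V × V) :=
  {a | a ∈ R ∧ ∀ j < n, a ∉ F j}

theorem PI_rv {F : Set (V × V)} (h : PI F) : PI (rv F) :=
  ⟨fun x y y' h1 h2 => h.2 y y' x h1 h2, fun x x' y h1 h2 => h.1 y x x' h1 h2⟩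

theorem rem_rv (R : Set (V × V)) (F : ℕ → Set (V × V)) (n : ℕ) :
    rem (rv R) (fun j => rv (F j)) n = rv (rem R F n) := rfl

theorem lost_eq [Finite V] (R : Set (V × V)) (F : ℕ → Set (V × V)) (n : ℕ)
    (hsub : ∀ j < n, F j ⊆ R) (hpi : ∀ j < n, PI (F j))
    (hdisj : ∀ i < n, ∀ j < n, i ≠ j → Disjoint (F i) (F j)) (v : V) :
    (out R v \ out (rem R F n) v).ncard = {j | j < n ∧ v ∈ dom (F j)}.ncard := by
  classical
  symm
  refine Set.ncard_congr (fun j hj => (hj.2 : ∃ y, (v, y) ∈ F j).choose) ?_ ?_ ?_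
  · intro j hj
    have h1 := (hj.2 : ∃ y, (v, y) ∈ F j).choose_spec
    exact ⟨hsub j hj.1 h1, fun h2 => h2.2 j hj.1 h1⟩
  · intro i j hi hj hij
    have h1 := (hi.2 : ∃ y, (v, y) ∈ F i).choose_spec
    have h2 := (hj.2 : ∃ y, (v, y) ∈ F j).choose_spec
    by_contra hne
    have h3 := hdisj i hi.1 j hj.1 hne
    rw [hij] at h1
    exact Set.disjoint_left.mp h3 h1 h2
  · intro y hy
    obtain ⟨h1, h2⟩ := hy
    have h3 : ∃ j < n, (v, y) ∈ F j := by
      by_contra h4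
      push Not at h4
      exact h2 ⟨h1, h4⟩
    obtain ⟨j, hj, h4⟩ := h3
    refine ⟨j, ⟨hj, y, h4⟩, ?_⟩
    have h5 := (⟨y, h4⟩ : ∃ y, (v, y) ∈ F j).choose_spec
    exact (hpi j hj).1 v _ _ h5 h4

theorem fin_lt (n : ℕ) (P : ℕ → Prop) : {j | j < n ∧ P j}.Finite :=
  (Set.finite_lt_nat n).subset fun _ h => h.1

theorem ncard_lt (n : ℕ) (P : ℕ → Prop) : {j | j < n ∧ P j}.ncard ≤ n := by
  have h1 : {j | j < n ∧ P j} ⊆ {j | j < n} := fun _ h => h.1
  have h2 := Set.ncard_le_ncard h1 (Set.finite_lt_nat n)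
  have h3 : {j : ℕ | j < n}.ncard = n := by
    have : {j : ℕ | j < n} = ((Finset.range n : Finset ℕ) : Set ℕ) := by ext; simp
    rw [this, Set.ncard_coe_finset, Finset.card_range]
  rwa [h3] at h2

theorem rem_sub (R : Set (V × V)) (F : ℕ → Set (V × V)) (n : ℕ) (v : V) :
    out (rem R F n) v ⊆ out R v := fun _ h => h.1

/-- degrees of what is left -/
theorem deg_rem [Finite V] (R : Set (V × V)) (U : Set V) (F : ℕ → Set (V × V)) (Z : ℕ → Set V)
    (n : ℕ) (hsub : ∀ j < n, F j ⊆ R) (hpi : ∀ j < n, PI (F j))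
    (hdisj : ∀ i < n, ∀ j < n, i ≠ j → Disjoint (F i) (F j)) (hZ : ∀ j < n, Z j ⊆ U)
    (hZd : ∀ i < n, ∀ j < n, i ≠ j → Disjoint (Z i) (Z j))
    (hcov : ∀ j < n, ∀ v, v ∉ Z j → v ∈ dom (F j)) (v : V) :
    (out R v).ncard ≤ (out (rem R F n) v).ncard + n ∧
    (out (rem R F n) v).ncard + n ≤ (out R v).ncard + 1 ∧
    (v ∉ U → (out (rem R F n) v).ncard + n ≤ (out R v).ncard) ∧
    ∀ A : Set V, (out R v ∩ A).ncard ≤ (out (rem R F n) v ∩ A).ncard + n := by
  have h1 := lost_eq R F n hsub hpi hdisj v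
  have h2 := Set.ncard_sdiff_add_ncard_of_subset (rem_sub R F n v) (Set.toFinite _)
  have h3 := ncard_lt n (fun j => v ∈ dom (F j))
  have hun : ({j | j < n ∧ v ∈ dom (F j)} ∪ {j | j < n ∧ v ∉ dom (F j)}) = {j | j < n} := by
    ext j
    simp only [mem_union, mem_ofPred_eq]
    tauto
  have h4 : n ≤ {j | j < n ∧ v ∈ dom (F j)}.ncard + {j | j < n ∧ v ∉ dom (F j)}.ncard := by
    have h5 := Set.ncard_union_le {j | j < n ∧ v ∈ dom (F j)} {j | j < n ∧ v ∉ dom (F j)}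
    rw [hun] at h5
    have h6 : {j : ℕ | j < n}.ncard = n := by
      have : {j : ℕ | j < n} = ((Finset.range n : Finset ℕ) : Set ℕ) := by ext; simp
      rw [this, Set.ncard_coe_finset, Finset.card_range]
    rwa [h6] at h5
  have h5 : {j | j < n ∧ v ∉ dom (F j)} ⊆ {j | j < n ∧ v ∈ Z j} := by
    rintro j ⟨hj, h6⟩
    refine ⟨hj, ?_⟩
    by_contra h7
    exact h6 (hcov j hj v h7)
  have h6 := Set.ncard_le_ncard h5 (fin_lt n _)
  have h7 : {j | j < n ∧ v ∈ Z j}.ncard ≤ 1 := by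
    rw [Set.ncard_le_one (fin_lt n _)]
    rintro a ⟨ha, ha'⟩ b ⟨hb, hb'⟩
    by_contra hne
    exact Set.disjoint_left.mp (hZd a ha b hb hne) ha' hb'
  refine ⟨by omega, by omega, ?_, ?_⟩
  · intro hv
    have h8 : {j | j < n ∧ v ∈ Z j} = ∅ := by
      ext j
      simp only [mem_ofPred_eq, mem_empty_iff_false, iff_false, not_and]
      intro hj hj'
      exact hv (hZ j hj hj')
    rw [h8, Set.ncard_empty] at h6
    omega
  · intro A
    have h8 : out R v ∩ A ⊆ (out (rem R F n) v ∩ A) ∪ (out R v \ out (rem R F n) v) := by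
      rintro y ⟨hy, hyA⟩
      by_cases h9 : y ∈ out (rem R F n) v
      · exact Or.inl ⟨h9, hyA⟩
      · exact Or.inr ⟨hy, h9⟩
    have h9 := (Set.ncard_le_ncard h8 (Set.toFinite _)).trans (Set.ncard_union_le _ _)
    omega

theorem half_mono {lam a n : ℝ} (hl : 0 < lam) (ha : lam ≤ a) (h : a ≤ n) :
    a / 2 - √(lam * a) ≤ n / 2 - √(lam * n) := by
  have ha0 : 0 ≤ a := by linarith
  have hn0 : 0 ≤ n := by linarith
  rw [Real.sqrt_mul hl.le, Real.sqrt_mul hl.le]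
  have h1 : √lam ≤ √a := Real.sqrt_le_sqrt ha
  have h2 : √a ≤ √n := Real.sqrt_le_sqrt h
  have h3 := Real.sq_sqrt ha0
  have h4 := Real.sq_sqrt hn0
  have h5 := Real.sqrt_nonneg lam
  have h6 : √lam * (√n - √a) ≤ √a * (√n - √a) :=
    mul_le_mul_of_nonneg_right h1 (by linarith)
  nlinarith [sq_nonneg (√n - √a)]

theorem half_up {lam n u : ℝ} (hl : 0 < lam) (h : n ≤ u) :
    n / 2 + √(lam * n) ≤ u / 2 + √(lam * u) := by
  have : √(lam * n) ≤ √(lam * u) := Real.sqrt_le_sqrt (by gcongr)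
  linarith

theorem p1s (hH : HLStmt) : P1SStmt := by
  intro V _ E k g lam L Up i hlam hk hE hL1 hL2 hU0 hU2 hPH R U D τ hRE hdeg hdU hLU hUU hD hτ
  classical
  -- halving
  let N : V × Fin 4 → Set V := fun p =>
    ![out R p.1 ∩ U, inn R p.1 ∩ U, out E p.1 ∩ U, inn E p.1 ∩ U] p.2
  have hoR : ∀ v, out R v ⊆ out E v := fun v y h => hRE h
  have hiR : ∀ v, inn R v ⊆ inn E v := fun v y h => hRE h
  have hN1 : ∀ j, (N j).ncard ≤ 6 * k := by
    rintro ⟨v, c⟩
    have h1 : (out E v).ncard = k := (hE v).1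
    have h2 : (inn E v).ncard = k := (hE v).2
    have a1 : (out R v ∩ U).ncard ≤ k := h1 ▸
      Set.ncard_le_ncard (Set.inter_subset_left.trans (hoR v)) (Set.toFinite _)
    have a2 : (inn R v ∩ U).ncard ≤ k := h2 ▸
      Set.ncard_le_ncard (Set.inter_subset_left.trans (hiR v)) (Set.toFinite _)
    have a3 : (out E v ∩ U).ncard ≤ k := h1 ▸
      Set.ncard_le_ncard Set.inter_subset_left (Set.toFinite _)
    have a4 : (inn E v ∩ U).ncard ≤ k := h2 ▸
      Set.ncard_le_ncard Set.inter_subset_left (Set.toFinite _)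
    fin_cases c
    · change (out R v ∩ U).ncard ≤ _; omega
    · change (inn R v ∩ U).ncard ≤ _; omega
    · change (out E v ∩ U).ncard ≤ _; omega
    · change (inn E v ∩ U).ncard ≤ _; omega
  have hN2 : ∀ z, {j | z ∈ N j}.ncard ≤ 6 * k := by
    intro z
    have h1 : {j | z ∈ N j} ⊆ (((fun v => (v, (0 : Fin 4))) '' inn E z) ∪
        ((fun v => (v, (1 : Fin 4))) '' out E z)) ∪ (((fun v => (v, (2 : Fin 4))) '' inn E z) ∪
        ((fun v => (v, (3 : Fin 4))) '' out E z)) := by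
      rintro ⟨v, c⟩ hj
      fin_cases c
      · exact Or.inl (Or.inl ⟨v, hRE hj.1, rfl⟩)
      · exact Or.inl (Or.inr ⟨v, hRE hj.1, rfl⟩)
      · exact Or.inr (Or.inl ⟨v, hj.1, rfl⟩)
      · exact Or.inr (Or.inr ⟨v, hj.1, rfl⟩)
    have h2 : ∀ c : Fin 4, ((fun v => (v, c)) '' inn E z).ncard ≤ k := fun c =>
      (Set.ncard_image_le (Set.toFinite _)).trans (hE z).2.le
    have h3 : ∀ c : Fin 4, ((fun v => (v, c)) '' out E z).ncard ≤ k := fun c =>
      (Set.ncard_image_le (Set.toFinite _)).trans (hE z).1.le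
    have h4 := Set.ncard_le_ncard h1 (Set.toFinite _)
    have h5 := h4.trans (Set.ncard_union_le _ _)
    have h6 := Set.ncard_union_le ((fun v => (v, (0 : Fin 4))) '' inn E z)
      ((fun v => (v, (1 : Fin 4))) '' out E z)
    have h7 := Set.ncard_union_le ((fun v => (v, (2 : Fin 4))) '' inn E z)
      ((fun v => (v, (3 : Fin 4))) '' out E z)
    have := h2 0
    have := h3 1
    have := h2 2
    have := h3 3
    omega
  have h8 : 8 * ((6 * k : ℕ) : ℝ) ^ 2 ≤ Real.exp (2 * lam) := by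
    push_cast
    calc 8 * (6 * (k : ℝ)) ^ 2 = 288 * (k : ℝ) ^ 2 := by ring
      _ ≤ _ := hk
  obtain ⟨S, hS⟩ := hH V (V × Fin 4) N (6 * k) lam hlam h8 hN1 hN2
  -- the two halves
  have key : ∀ (j : V × Fin 4) (X : Set V), N j = X ∩ U →
      ((X ∩ (U ∩ S)).ncard : ℝ) ≤ ((X ∩ U).ncard : ℝ) / 2 + √(lam * (X ∩ U).ncard) ∧
      ((X ∩ (U \ S)).ncard : ℝ) ≤ ((X ∩ U).ncard : ℝ) / 2 + √(lam * (X ∩ U).ncard) ∧
      ((X ∩ U).ncard : ℝ) / 2 - √(lam * (X ∩ U).ncard) ≤ ((X ∩ (U ∩ S)).ncard : ℝ) ∧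
      ((X ∩ U).ncard : ℝ) / 2 - √(lam * (X ∩ U).ncard) ≤ ((X ∩ (U \ S)).ncard : ℝ) := by
    intro j X hj
    have h1 := hS j
    rw [hj, Set.inter_assoc] at h1
    have h2 := abs_le.mp h1
    have h3 : (X ∩ (U \ S)) = (X ∩ U) \ (X ∩ (U ∩ S)) := by
      ext y
      simp only [mem_inter_iff, mem_sdiff]
      tauto
    have h4 : X ∩ (U ∩ S) ⊆ X ∩ U := fun y h => ⟨h.1, h.2.1⟩
    have h5 := Set.ncard_sdiff_add_ncard_of_subset h4 (Set.toFinite _)
    rw [← h3] at h5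
    have h6 : ((X ∩ (U \ S)).ncard : ℝ) + ((X ∩ (U ∩ S)).ncard : ℝ) = ((X ∩ U).ncard : ℝ) := by
      exact_mod_cast h5
    refine ⟨by linarith [h2.2], by linarith [h2.1], by linarith [h2.1], by linarith [h2.2]⟩
  have k0 : ∀ v, N (v, 0) = out R v ∩ U := fun _ => rfl
  have k1 : ∀ v, N (v, 1) = inn R v ∩ U := fun _ => rfl
  have k2 : ∀ v, N (v, 2) = out E v ∩ U := fun _ => rfl
  have k3 : ∀ v, N (v, 3) = inn E v ∩ U := fun _ => rfl
  have low : ∀ n : ℕ, L (i + 1) ≤ (n : ℝ) → L i + 2 ^ i ≤ (n : ℝ) / 2 - √(lam * n) :=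
    fun n hn => hL2.trans (half_mono hlam hL1 hn)
  have upp : ∀ n : ℕ, (n : ℝ) ≤ Up (i + 1) → (n : ℝ) / 2 + √(lam * n) ≤ Up i :=
    fun n hn => (half_up hlam hn).trans hU2
  have hpow : (2 : ℕ) ^ (i + 1) = 2 ^ i + 2 ^ i := by ring
  have hp1 : 0 < (2 : ℕ) ^ i := by positivity
  have hp0 : (0 : ℝ) < 2 ^ i := by positivity
  obtain ⟨F, Z, hG⟩ := hPH R (U ∩ S) D τ hRE hdeg (fun v hv => hdU v hv.1)
    (fun v => ⟨by linarith [(key _ _ (k0 v)).2.2.1, low _ (hLU v).1],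
      by linarith [(key _ _ (k1 v)).2.2.1, low _ (hLU v).2]⟩)
    (fun v => ⟨(key _ _ (k2 v)).1.trans (upp _ (hUU v).1),
      (key _ _ (k3 v)).1.trans (upp _ (hUU v).2)⟩)
    (by omega) hτ
  obtain ⟨R1, hR1⟩ : ∃ R1, R1 = rem R F (2 ^ i) := ⟨_, rfl⟩
  have dg1 := fun v => deg_rem R (U ∩ S) F Z (2 ^ i) hG.sub hG.pi hG.disj hG.zsub
    hG.zdisj (fun j hj v hv => (hG.cov j hj v hv).1) v
  rw [← hR1] at dg1
  have dg2 := fun v => deg_rem (rv R) (U ∩ S) (fun j => rv (F j)) Z (2 ^ i)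
    (fun j hj p hp => hG.sub j hj hp) (fun j hj => PI_rv (hG.pi j hj))
    (fun a ha b hb hab => by
      rw [Set.disjoint_left]
      intro p hp hq
      exact Set.disjoint_left.mp (hG.disj a ha b hb hab) hp hq)
    hG.zsub hG.zdisj (fun j hj v hv => (hG.cov j hj v hv).2) v
  have o1 : ∀ v, out (rv R) v = inn R v := fun _ => rfl
  have o2 : ∀ v, out (rem (rv R) (fun j => rv (F j)) (2 ^ i)) v = inn R1 v := by
    intro v
    rw [hR1]; rfl
  have hR1R : R1 ⊆ R := by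
    rw [hR1]; exact fun _ h => h.1
  have hR1F : ∀ p ∈ R1, ∀ j < 2 ^ i, p ∉ F j := by
    rw [hR1]; exact fun _ h => h.2
  obtain ⟨F', Z', hG'⟩ := hPH R1 (U \ S) (D - 2 ^ i) τ (hR1R.trans hRE)
    (fun v => by
      have a := dg1 v
      have b := dg2 v
      rw [o1, o2] at b
      have c := hdeg v
      by_cases hv : v ∈ U ∩ S
      · have d := hdU v hv.1
        refine ⟨⟨?_, ?_⟩, ?_, ?_⟩ <;> omega
      · have a' := a.2.2.1 hv
        have b' := b.2.2.1 hv
        refine ⟨⟨?_, ?_⟩, ?_, ?_⟩ <;> omega)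
    (fun v hv => by
      have hv' : v ∉ U ∩ S := fun h => hv.2 h.2
      have a := (dg1 v).2.2.1 hv'
      have b := (dg2 v).2.2.1 hv'
      rw [o1, o2] at b
      have d := hdU v hv.1
      refine ⟨?_, ?_⟩ <;> omega)
    (fun v => by
      have a := (dg1 v).2.2.2 (U \ S)
      have b := (dg2 v).2.2.2 (U \ S)
      rw [o1, o2] at b
      have a' : ((out R v ∩ (U \ S)).ncard : ℝ) ≤ ((out R1 v ∩ (U \ S)).ncard : ℝ) + 2 ^ i := by
        exact_mod_cast a
      have b' : ((inn R v ∩ (U \ S)).ncard : ℝ) ≤ ((inn R1 v ∩ (U \ S)).ncard : ℝ) + 2 ^ i := by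
        exact_mod_cast b
      exact ⟨by linarith [(key _ _ (k0 v)).2.2.2, low _ (hLU v).1],
        by linarith [(key _ _ (k1 v)).2.2.2, low _ (hLU v).2]⟩)
    (fun v => ⟨(key _ _ (k2 v)).2.1.trans (upp _ (hUU v).1),
      (key _ _ (k3 v)).2.1.trans (upp _ (hUU v).2)⟩)
    (by omega) hτ
  -- put together
  refine ⟨fun j => if j < 2 ^ i then F j else F' (j - 2 ^ i),
    fun j => if j < 2 ^ i then Z j else Z' (j - 2 ^ i), ?_⟩
  have cases : ∀ j < 2 ^ (i + 1), j < 2 ^ i ∨ (¬ j < 2 ^ i ∧ j - 2 ^ i < 2 ^ i) := by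
    intro j hj
    omega
  constructor
  · intro j hj
    rcases cases j hj with h | ⟨h, h'⟩
    · simp only [h, if_true]; exact hG.sub j h
    · simp only [h, if_false]; exact (hG'.sub _ h').trans hR1R
  · intro j hj
    rcases cases j hj with h | ⟨h, h'⟩
    · simp only [h, if_true]; exact hG.pi j h
    · simp only [h, if_false]; exact hG'.pi _ h'
  · intro j hj
    rcases cases j hj with h | ⟨h, h'⟩
    · simp only [h, if_true]; exact hG.cw j h
    · simp only [h, if_false]; exact hG'.cw _ h'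
  · intro a ha b hb hab
    rcases cases a ha with h | ⟨h, h'⟩ <;> rcases cases b hb with h2 | ⟨h2, h2'⟩
    · simp only [h, h2, if_true]; exact hG.disj a h b h2 hab
    · simp only [h, h2, if_true, if_false]
      rw [Set.disjoint_left]
      intro p hp hq
      exact hR1F p (hG'.sub _ h2' hq) a h hp
    · simp only [h, h2, if_true, if_false]
      rw [Set.disjoint_left]
      intro p hp hq
      exact hR1F p (hG'.sub _ h' hp) b h2 hq
    · simp only [h, h2, if_false]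
      exact hG'.disj _ h' _ h2' (by omega)
  · intro j hj
    rcases cases j hj with h | ⟨h, h'⟩
    · simp only [h, if_true]; exact (hG.zsub j h).trans Set.inter_subset_left
    · simp only [h, if_false]; exact (hG'.zsub _ h').trans Set.sdiff_subset
  · intro a ha b hb hab
    rcases cases a ha with h | ⟨h, h'⟩ <;> rcases cases b hb with h2 | ⟨h2, h2'⟩
    · simp only [h, h2, if_true]; exact hG.zdisj a h b h2 hab
    · simp only [h, h2, if_true, if_false]
      rw [Set.disjoint_left]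
      intro p hp hq
      exact (hG'.zsub _ h2' hq).2 (hG.zsub a h hp).2
    · simp only [h, h2, if_true, if_false]
      rw [Set.disjoint_left]
      intro p hp hq
      exact (hG'.zsub _ h' hp).2 (hG.zsub b h2 hq).2
    · simp only [h, h2, if_false]
      exact hG'.zdisj _ h' _ h2' (by omega)
  · intro j hj v
    rcases cases j hj with h | ⟨h, h'⟩
    · simp only [h, if_true]; exact hG.cov j h v
    · simp only [h, if_false]; exact hG'.cov _ h' v
  · intro j hj v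
    rcases cases j hj with h | ⟨h, h'⟩
    · simp only [h, if_true]; exact hG.sm j h v
    · simp only [h, if_false]; exact hG'.sm _ h' v

end Pool.Agent.LAX.H53
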