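import Pool.Agent.Helper53_LAX.P1s

/-!
Squad LAX, module SBK (helper53): one superblock.
-/

set_option autoImplicit false

namespace Pool.Agent.LAX.H53

open Set

variable {V : Type}

theorem PI_kc {F S M : Set (V × V)} (hF : PI F) (hM : PI M) (hS : S ⊆ F) (h1 : dom M ⊆ dom S)
    (h2 : ran M ⊆ ran S) : PI ((F \ S) ∪ M) := by
  constructor
  · rintro x y y' (⟨ha, ha'⟩ | ha) (⟨hb, hb'⟩ | hb)
    · exact hF.1 x y y' ha hb
    · obtain ⟨z, hz⟩ := h1 ⟨y', hb⟩
      have := hF.1 x y z ha (hS hz)
      exact absurd (this ▸ hz) ha'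
    · obtain ⟨z, hz⟩ := h1 ⟨y, ha⟩
      have := hF.1 x y' z hb (hS hz)
      exact absurd (this ▸ hz) hb'
    · exact hM.1 x y y' ha hb
  · rintro x x' y (⟨ha, ha'⟩ | ha) (⟨hb, hb'⟩ | hb)
    · exact hF.2 x x' y ha hb
    · obtain ⟨z, hz⟩ := h2 ⟨x', hb⟩
      have := hF.2 x z y ha (hS hz)
      exact absurd (this ▸ hz) ha'
    · obtain ⟨z, hz⟩ := h2 ⟨x, ha⟩
      have := hF.2 x' z y hb (hS hz)
      exact absurd (this ▸ hz) hb'
    · exact hM.2 x x' y ha hb

theorem lost_le [Finite V] (E : Set (V × V)) (K : ℕ → Set (V × V)) (q : ℕ)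
    (hK : ∀ c < q, PI (K c)) (v : V) : (out E v).ncard ≤ (out (rem E K q) v).ncard + q := by
  classical
  have h1 : out E v ⊆ out (rem E K q) v ∪ ⋃ c ∈ Finset.range q, out (K c) v := by
    intro y hy
    by_cases h : ∃ c < q, (v, y) ∈ K c
    · obtain ⟨c, hc, hc'⟩ := h
      refine Or.inr ?_
      simp only [Finset.mem_range, mem_iUnion]
      exact ⟨c, hc, hc'⟩
    · push Not at h
      exact Or.inl ⟨hy, h⟩
  have h2 : ∀ n ≤ q, (⋃ c ∈ Finset.range n, out (K c) v).ncard ≤ n := by
    intro n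
    induction n with
    | zero => intro _; simp
    | succ n ih =>
      intro hn
      have h3 : (⋃ c ∈ Finset.range (n + 1), out (K c) v)
          ⊆ (⋃ c ∈ Finset.range n, out (K c) v) ∪ out (K n) v := by
        intro y hy
        simp only [Finset.mem_range, mem_iUnion] at hy
        obtain ⟨c, hc, hc'⟩ := hy
        rcases Nat.lt_succ_iff_lt_or_eq.mp hc with h | h
        · refine Or.inl ?_
          simp only [Finset.mem_range, mem_iUnion]
          exact ⟨c, h, hc'⟩
        · exact Or.inr (h ▸ hc')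
      have h4 := (Set.ncard_le_ncard h3 (Set.toFinite _)).trans (Set.ncard_union_le _ _)
      have h5 : (out (K n) v).ncard ≤ 1 := by
        rw [Set.ncard_le_one (Set.toFinite _)]
        intro a ha b hb
        exact (hK n (by omega)).1 v a b ha hb
      have := ih (by omega)
      omega
  have h3 := (Set.ncard_le_ncard h1 (Set.toFinite _)).trans (Set.ncard_union_le _ _)
  have := h2 q le_rfl
  omega

theorem sbk (hI : IPStmt) (hB : BlkStmt) : SbkStmt := by
  intro V _ E k q w0 F Z lam h u lo hi e e₁ P g Hb b D D' ζ hlam hk hg hP hE hC hN hlo he₁ he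
    S M n W hS hn hW
  classical
  have hpi : ∀ c < q, PI (kc F S M c) := by
    intro c hc
    by_cases h1 : c < n * P
    · have h2 := hS.rel c h1
      exact PI_kc (hC.pi c hc) h2.pi h2.sub h2.dm h2.rn
    · obtain ⟨h2, h3⟩ := hS.unp c (by omega)
      unfold kc
      rw [h2, h3]
      simpa using hC.pi c hc
  have hlft : lft E q F S M = rem E (kc F S M) q := rfl
  have hlE : lft E q F S M ⊆ E := fun _ h => h.1
  have ho : ∀ v, lo ≤ (out (lft E q F S M) v).ncard := by
    intro v
    have h1 := lost_le E (kc F S M) q hpi v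
    rw [(hE v).1, ← hlft] at h1
    omega
  have hi' : ∀ v, lo ≤ (inn (lft E q F S M) v).ncard := by
    intro v
    have h1 := lost_le (rv E) (fun c => rv (kc F S M c)) q (fun c hc => PI_rv (hpi c hc)) v
    rw [rem_rv, ← hlft] at h1
    have h2 : (out (rv E) v).ncard = k := (hE v).2
    have h3 : out (rv (lft E q F S M)) v = inn (lft E q F S M) v := rfl
    rw [h2, h3] at h1
    omega
  -- the colouring
  let N : V × Fin 2 → Set V := fun p =>
    ![out (lft E q F S M) p.1, inn (lft E q F S M) p.1] p.2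
  have hN1 : ∀ j, (N j).ncard ≤ 6 * k := by
    rintro ⟨v, c⟩
    have h1 : (out E v).ncard = k := (hE v).1
    have h2 : (inn E v).ncard = k := (hE v).2
    have a1 : (out (lft E q F S M) v).ncard ≤ k := h1 ▸
      Set.ncard_le_ncard (fun y hy => hlE hy) (Set.toFinite _)
    have a2 : (inn (lft E q F S M) v).ncard ≤ k := h2 ▸
      Set.ncard_le_ncard (fun y hy => hlE hy) (Set.toFinite _)
    fin_cases c
    · change (out (lft E q F S M) v).ncard ≤ _; omega
    · change (inn (lft E q F S M) v).ncard ≤ _; omega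
  have hN2 : ∀ z, {j | z ∈ N j}.ncard ≤ 6 * k := by
    intro z
    have h1 : {j | z ∈ N j} ⊆ ((fun v => (v, (0 : Fin 2))) '' inn E z) ∪
        ((fun v => (v, (1 : Fin 2))) '' out E z) := by
      rintro ⟨v, c⟩ hj
      fin_cases c
      · exact Or.inl ⟨v, hlE hj, rfl⟩
      · exact Or.inr ⟨v, hlE hj, rfl⟩
    have h2 : ((fun v => (v, (0 : Fin 2))) '' inn E z).ncard ≤ k :=
      (Set.ncard_image_le (Set.toFinite _)).trans (hE z).2.le
    have h3 : ((fun v => (v, (1 : Fin 2))) '' out E z).ncard ≤ k :=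
      (Set.ncard_image_le (Set.toFinite _)).trans (hE z).1.le
    have h4 := (Set.ncard_le_ncard h1 (Set.toFinite _)).trans (Set.ncard_union_le _ _)
    omega
  have h8 : 8 * ((6 * k : ℕ) : ℝ) ^ 2 ≤ Real.exp (2 * lam) := by
    push_cast
    calc 8 * (6 * (k : ℝ)) ^ 2 = 288 * (k : ℝ) ^ 2 := by ring
      _ ≤ _ := hk
  obtain ⟨col, hcol, hnear⟩ := hI V (V × Fin 2) N (6 * k) lam h hlam h8 hN1 hN2
  have low : ∀ (X : Set V) (i : ℕ), lo ≤ X.ncard → Near lam h X {z | col z = i} →
      e₁ ≤ (X ∩ {z | col z = i}).ncard := by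
    intro X i hX hn'
    have h1 : √((lo : ℝ) / 2 ^ h) ≤ √((X.ncard : ℝ) / 2 ^ h) := by
      apply Real.sqrt_le_sqrt
      have : (lo : ℝ) ≤ (X.ncard : ℝ) := by exact_mod_cast hX
      gcongr
    have h2 : √(e₁ : ℝ) ≤ √((X ∩ {z | col z = i}).ncard : ℝ) := by linarith [hn'.1]
    have h3 := (Real.sqrt_le_sqrt_iff (Nat.cast_nonneg _)).mp h2
    exact_mod_cast h3
  have main : ∀ i ≤ 2 ^ h, ∃ (S' M' : ℕ → Set (V × V)) (w : V → ℕ),
      Sta E q P b Hb F S' M' (n + i) w ∧
      (∀ v, w v = W + if col v < i then Hb else 0) ∧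
      ∀ (v : V) (A : Set V), (out (lft E q F S M) v ∩ A).ncard ≤
          (out (lft E q F S' M') v ∩ A).ncard + i * Hb ∧
        (inn (lft E q F S M) v ∩ A).ncard ≤
          (inn (lft E q F S' M') v ∩ A).ncard + i * Hb := by
    intro i
    induction i with
    | zero =>
      intro _
      exact ⟨S, M, fun _ => W, hS, fun v => by simp, fun v A => by simp⟩
    | succ i ih =>
      intro hi2
      obtain ⟨S1, M1, w1, q1, q2, q3⟩ := ih (by omega)
      have hwle : ∀ v, w1 v ≤ W + Hb := by
        intro v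
        rw [q2 v]
        split_ifs <;> omega
      have hnP : (n + i + 1) * P ≤ q :=
        le_trans (Nat.mul_le_mul_right P (by omega)) hn
      have hiHb : i * Hb ≤ 2 ^ h * Hb := Nat.mul_le_mul_right Hb (by omega)
      obtain ⟨S2, M2, w2, r1, r2, r3, r4⟩ := hB V E k q w0 F Z lam h u lo hi e P g Hb b D D' ζ
        hlam hk hg hP hE hC hN (by omega) S1 M1 (n + i) w1 {z | col z = i} q1 hnP
        (fun v => by have := hwle v; omega)
        (fun v => by
          have a1 := low (out (lft E q F S M) v) i (ho v) (hnear (v, 0) i (by omega))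
          have a2 := low (inn (lft E q F S M) v) i (hi' v) (hnear (v, 1) i (by omega))
          have a3 := q3 v {z | col z = i}
          exact ⟨by omega, by omega⟩)
      refine ⟨S2, M2, w2, r1, ?_, ?_⟩
      · intro v
        by_cases hv : col v = i
        · rw [r3 v hv, q2 v, if_neg (by omega), if_pos (by omega)]
          omega
        · rw [r2 v hv, q2 v]
          by_cases hv' : col v < i
          · rw [if_pos hv', if_pos (by omega)]
          · rw [if_neg hv', if_neg (by omega)]
      · intro v A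
        have a1 := q3 v A
        have a2 := r4 v A
        have a3 : (i + 1) * Hb = i * Hb + Hb := by ring
        exact ⟨by omega, by omega⟩
  obtain ⟨S', M', w, q1, q2, _⟩ := main (2 ^ h) le_rfl
  refine ⟨S', M', ?_⟩
  have hw : w = fun _ => W + Hb := by
    funext v
    rw [q2 v, if_pos (hcol v)]
  rw [← hw]
  exact q1

end Pool.Agent.LAX.H53
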